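import Mathlib

set_option autoImplicit false

/-! Two-step Vizing chains that avoid a small far away set of vertices. -/

namespace Pool.Agent.H.MP_20d0cc_lc

open Finset Function

theorem ends {σ τ : ℕ → ℕ} (hσ : Involutive σ) (hτ : Involutive τ) {u : ℕ} (hu : τ u = u) :
    ∃ (S : Set ℕ) (v : ℕ), u ∈ S ∧ (∀ w ∈ S, σ w ∈ S ∧ τ w ∈ S) ∧ ∀ w ∈ S, σ w = w ∨ τ w = w → w = u ∨ w = v := by
  classical
  obtain ⟨c, c0, c1⟩ : ∃ c : ℕ → ℕ → ℕ, (∀ n, Involutive (c n)) ∧ c 0 = τ ∧ ∀ n, c n = σ ∧ c (n + 1) = τ ∨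
      c n = τ ∧ c (n + 1) = σ := ⟨fun n => if Even n then τ else σ, fun n => by beta_reduce; split_ifs <;> assumption, by simp,
    fun n => by by_cases h : Even n <;> simp [h, Nat.even_add_one]⟩
  obtain ⟨p, p0, p1⟩ : ∃ p : ℕ → ℕ, p 0 = u ∧ ∀ n, p (n + 1) = c (n + 1) (p n) :=
    ⟨fun n => n.rec u fun n x => c (n + 1) x, rfl, fun _ => rfl⟩
  have b : ∀ n, c n (p n) = p (n - 1) := fun n => by
    cases n with
    | zero => simp [c1.1, p0, hu]
    | succ n => simp [p1, c0 _ _]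
  refine ⟨{w | ∃ n, p n = w ∧ ∀ k < n, p (k + 1) ≠ p k}, p (sInf {n | p (n + 1) = p n}), ⟨0, p0, by simp⟩, ?_, ?_⟩
  · rintro _ ⟨n, rfl, h⟩
    have x : ∃ m, p m = c n (p n) ∧ ∀ k < m, p (k + 1) ≠ p k := ⟨n - 1, (b n).symm, fun k l => h k (by omega)⟩
    have y : ∃ m, p m = c (n + 1) (p n) ∧ ∀ k < m, p (k + 1) ≠ p k := by
      by_cases e : p (n + 1) = p n
      exacts [⟨n, e.symm.trans (p1 n), h⟩, ⟨n + 1, p1 n, fun k l => (Nat.lt_succ_iff_lt_or_eq.1 l).elim (h k) (· ▸ e)⟩]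
    rcases c1.2 n with e | e <;> rw [e.1] at x <;> rw [e.2] at y
    exacts [⟨x, y⟩, ⟨y, x⟩]
  · rintro _ ⟨n, rfl, h⟩ k
    have : c n (p n) = p n ∨ c (n + 1) (p n) = p n := by
      rcases c1.2 n with e | e <;> rw [e.1, e.2]
      exacts [k, k.symm]
    rcases this with e | e
    · cases n with
      | zero => exact .inl p0
      | succ n => exact (h n n.lt_succ_self ((b _).symm.trans e).symm).elim
    · rw [← p1] at e
      exact .inr (congrArg p (le_antisymm (le_csInf ⟨n, e⟩ fun m l => not_lt.1 fun o => h m o l) (Nat.sInf_le e)))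

/-- a proper edge colouring of some of the edges, with colours `1, …, D + 1` and `0` for no colour -/
structure Pr (G : SimpleGraph ℕ) (D : ℕ) (f : ℕ → ℕ → ℕ) : Prop where
  sy : ∀ u v, f u v = f v u
  ad : ∀ u v, f u v ≠ 0 → G.Adj u v
  le : ∀ u v, f u v ≤ D + 1
  pr : ∀ u v w, f u v = f u w → f u v ≠ 0 → v = w

/-- the colour is missing at the vertex -/
def Ms (f : ℕ → ℕ → ℕ) (u c : ℕ) : Prop := ∀ v, f u v ≠ c

/-- closed under edges of two colours -/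
def Cl (f : ℕ → ℕ → ℕ) (a b : ℕ) (K : Set ℕ) : Prop := ∀ u ∈ K, ∀ v, f u v = a ∨ f u v = b → v ∈ K

def up (f : ℕ → ℕ → ℕ) (x y c : ℕ) (u v : ℕ) : ℕ := if u = x ∧ v = y ∨ u = y ∧ v = x then c else f u v

variable {G : SimpleGraph ℕ} {D : ℕ} {f g φ : ℕ → ℕ → ℕ} {W K : Set ℕ} {T : ℕ → ℕ → Prop} {x y z p q a b c : ℕ}

theorem Pr.self (h : Pr G D f) (u : ℕ) : f u u = 0 := by_contra fun k => (h.ad u u k).ne rfl

theorem Pr.pos (h : Pr G D f) (k : Ms f x c) : c ≠ 0 := fun e => k x (e ▸ h.self x)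

theorem Pr.ends (h : Pr G D f) (ha : a ≠ 0) (hb : b ≠ 0) (k : Ms f x a ∨ Ms f x b) : ∃ (S : Set ℕ) (v : ℕ), x ∈ S ∧
    Cl f a b Sᶜ ∧ ∀ w ∈ S, Ms f w a ∨ Ms f w b → w = x ∨ w = v := by
  classical
  wlog k' : Ms f x b generalizing a b
  · obtain ⟨S, v, c, d, e⟩ := this hb ha k.symm (k.resolve_right k')
    exact ⟨S, v, c, fun u m w n => d u m w n.symm, fun w m n => e w m n.symm⟩
  obtain ⟨s, s1, s2⟩ : ∃ s : ℕ → ℕ → ℕ, (∀ c u v, c ≠ 0 → f u v = c → s c u = v) ∧ ∀ c u, Ms f u c → s c u = u :=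
    ⟨fun c u => if e : ∃ v, f u v = c then e.choose else u, fun c u v n e => by
      have m : ∃ v, f u v = c := ⟨v, e⟩
      exact (dif_pos m).trans (h.pr u _ _ (m.choose_spec.trans e.symm) (m.choose_spec.trans_ne n)),
      fun c u e => dif_neg (not_exists.2 e)⟩
  have i : ∀ c ≠ 0, Involutive (s c) := fun c n u => by
    by_cases e : ∃ v, f u v = c
    · exact e.elim fun v e => by rw [s1 c u v n e, s1 c v u n (h.sy _ _ ▸ e)]
    · rw [s2 c u (not_exists.1 e), s2 c u (not_exists.1 e)]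
  obtain ⟨S, v, c, d, e⟩ := MP_20d0cc_lc.ends (i a ha) (i b hb) (s2 _ _ k')
  exact ⟨S, v, c, fun u m w n o => m (n.elim (fun n => s1 a w u ha (h.sy _ _ ▸ n) ▸ (d w o).1)
    fun n => s1 b w u hb (h.sy _ _ ▸ n) ▸ (d w o).2), fun w m n => e w m (n.imp (s2 _ _) (s2 _ _))⟩

/-- degree bound -/
def Dg (G : SimpleGraph ℕ) (D : ℕ) : Prop := ∀ (x : ℕ) (s : Finset ℕ), (∀ y ∈ s, G.Adj x y) → s.card ≤ D

theorem Pr.miss (h : Pr G D f) (hD : Dg G D) (x : ℕ) (s t : Finset ℕ) (hs : ∀ y ∈ s, G.Adj x y ∧ f x y = 0)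
    (k : t.card ≤ s.card) : ∃ c ≤ D + 1, c ∉ t ∧ Ms f x c := by
  classical
  by_contra! e
  simp only [Ms, not_forall, not_not] at e
  choose! v e using e
  have m : ∀ c ∈ Icc 1 (D + 1) \ t, f x (v c) = c ∧ c ≠ 0 := fun c l => by
    simp only [mem_sdiff, mem_Icc] at l
    exact ⟨e c l.1.2 l.2, by omega⟩
  have := hD x (s ∪ (Icc 1 (D + 1) \ t).image v) (by
    simp only [mem_union, mem_image]
    rintro _ (l | ⟨c, l, rfl⟩)
    exacts [(hs _ l).1, h.ad _ _ ((m c l).1.trans_ne (m c l).2)])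
  rw [card_union_of_disjoint, card_image_of_injOn fun c l d n o => by rw [← (m c l).1, o, (m d n).1]] at this
  · have := le_card_sdiff t (Icc 1 (D + 1))
    simp only [Nat.card_Icc] at this
    omega
  · refine disjoint_left.2 fun y l n => ?_
    obtain ⟨c, o, rfl⟩ := mem_image.1 n
    exact (m c o).2 ((m c o).1.symm.trans (hs _ l).2)

/-- a colouring of the target, unchanged at the frozen vertices -/
def Sol (G : SimpleGraph ℕ) (D : ℕ) (φ : ℕ → ℕ → ℕ) (W : Set ℕ) (T : ℕ → ℕ → Prop) : Prop :=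
  ∃ f, Pr G D f ∧ (∀ u ∈ W, ∀ v, f u v = φ u v) ∧ ∀ u v, T u v → f u v ≠ 0

/-- a colouring of the target with one hole -/
structure St (G : SimpleGraph ℕ) (D : ℕ) (φ : ℕ → ℕ → ℕ) (W : Set ℕ) (T : ℕ → ℕ → Prop) (f : ℕ → ℕ → ℕ) (p q : ℕ) :
    Prop where
  pr : Pr G D f
  fr : ∀ u ∈ W, ∀ v, f u v = φ u v
  ad : G.Adj p q
  ze : f p q = 0
  co : ∀ u v, T u v → f u v ≠ 0 ∨ u = p ∧ v = q ∨ u = q ∧ v = p

theorem St.symm (h : St G D φ W T f p q) : St G D φ W T f q p :=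
  ⟨h.pr, h.fr, h.ad.symm, h.pr.sy _ _ ▸ h.ze, fun u v k => (h.co u v k).imp_right .symm⟩

theorem Pr.up (h : Pr G D f) (e : G.Adj x y) (l : c ≤ D + 1) (k : c = 0 ∨ Ms f x c ∧ Ms f y c) :
    Pr G D (up f x y c) := by
  have := e.ne
  have := e.symm
  obtain ⟨h1, h2, h3, h4⟩ := h
  constructor <;> simp only [MP_20d0cc_lc.up, Ms] at * <;> grind

theorem St.fill (h : St G D φ W T f p q) (hp : p ∉ W) (hq : q ∉ W) (l : c ≤ D + 1) (k : Ms f p c) (m : Ms f q c) :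
    Sol G D φ W T := by
  refine ⟨_, h.pr.up h.ad l (.inr ⟨k, m⟩), fun u o v => ?_, fun u v o => ?_⟩
  · have := h.fr u o v
    grind [up]
  · have := h.co u v o
    have := h.pr.pos k
    grind [up]

theorem St.mv (h : St G D φ W T f p q) (hp : p ∉ W) (hq : q ∉ W) (hz : z ∉ W) (m : Ms f q c) (k : f p z = c) :
    St G D φ W T (up (up f p z 0) p q c) p z := by
  have c0 := h.pr.pos m
  have e := h.pr.ad p z (k ▸ c0)
  have := e.ne
  have := h.ad.ne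
  have := h.ze
  have := h.pr.pr p z
  refine ⟨(h.pr.up e (by omega) (.inl rfl)).up h.ad (k ▸ h.pr.le _ _) (.inr ⟨?_, ?_⟩), fun u o v => ?_, e, ?_,
    fun u v o => ?_⟩
  · grind [up, Ms]
  · grind [up, Ms]
  · have := h.fr u o v
    grind [up]
  · grind [up]
  · have := h.co u v o
    grind [up]

theorem St.kempe (h : St G D φ W T f p q) (hp : p ∉ W) (la : a ≤ D + 1) (lb : b ≤ D + 1) (k : Ms f p a) (m : Ms f q b)
    (hK : Cl f a b K) (pK : p ∉ K) (qK : q ∈ K) (wK : ∀ w ∈ W, w ∉ K) : Sol G D φ W T := by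
  classical
  have a0 := h.pr.pos k
  have b0 := h.pr.pos m
  obtain ⟨⟨h1, h2, h3, h4⟩, h5, h6, h7, h8⟩ := h
  refine St.fill (f := fun u v => if u ∈ K then Equiv.swap a b (f u v) else f u v) (p := p) (q := q)
    ⟨⟨fun u v => ?_, fun u v => ?_, fun u v => ?_, fun u v w => ?_⟩, fun u o v => ?_, h6, ?_, fun u v o => ?_⟩ hp
      (fun o => wK _ o qK) la ?_ ?_
  · have := hK u
    have := hK v
    have := h1 u v
    grind
  · have := h2 u v
    grind
  · have := h3 u v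
    grind
  · have := h4 u v w
    grind
  · have := h5 u o v
    grind
  · grind
  · have := h8 u v o
    grind
  · grind [Ms]
  · grind [Ms]

theorem St.fan (h : St G D φ W T f x y) (hD : Dg G D) (n : ¬ Sol G D φ W T) (hx : x ∉ W) (hw : ∀ v, G.Adj x v → v ∉ W)
    (la : a ≤ D + 1) (lb : b ≤ D + 1) (ha : Ms f x a) (hb : Ms f y b) : ∃ (g : ℕ → ℕ → ℕ) (z c d : ℕ) (S : Set ℕ),
      St G D φ W T g x z ∧ c ≤ D + 1 ∧ d ≤ D + 1 ∧ Ms f x c ∧ Ms g x c ∧ Ms f z d ∧ Ms g z d ∧ x ∉ S ∧ z ∈ S ∧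
      (∀ K ⊆ S, Cl f c d K → Cl g c d K) ∧
      (c = a ∧ d = b ∧ z ≠ y ∧ S = {x}ᶜ ∨ c ≠ a ∧ c ≠ b ∧ d ≠ a ∧ d ≠ b ∧ Cl f c d S) := by
  by_contra e
  obtain ⟨A, hA⟩ : ∃ A : (ℕ → ℕ → ℕ) → ℕ → Prop, ∀ g z, A g z ↔ St G D φ W T g x z ∧
    (∀ u v, u ≠ x → v ≠ x → g u v = f u v) ∧ ∀ c, Ms f x c → Ms g x c := ⟨_, fun _ _ => .rfl⟩
  have ms : ∀ {g z c}, A g z → Ms f z c → Ms g z c := fun {g z c} k m v => by
    obtain ⟨k, l, -⟩ := (hA _ _).1 k
    have := k.symm.ze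
    have := h.pr.pos m
    have := k.ad.ne
    grind [Ms]
  have out : ∀ {g z c d} {S : Set ℕ}, A g z → c ≤ D + 1 → d ≤ D + 1 → Ms f x c → Ms f z d → x ∉ S → z ∈ S →
      (∀ v ∈ S, g x v = d → f x v = d) →
        ¬ (c = a ∧ d = b ∧ z ≠ y ∧ S = {x}ᶜ ∨ c ≠ a ∧ c ≠ b ∧ d ≠ a ∧ d ≠ b ∧ Cl f c d S) :=
    fun {g z c d S} k lc ld mc md xS zS o r => by
      obtain ⟨k1, k2, k3⟩ := (hA _ _).1 k
      refine e ⟨g, z, c, d, S, k1, lc, ld, mc, k3 _ mc, md, ms k md, xS, zS, fun K s t u uK v w => ?_, r⟩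
      have := k3 _ mc u
      have := k1.pr.sy u x
      have := h.pr.sy u x
      have := t u uK v
      have := s uK
      have := @s x
      grind
  have : ∀ k, ∃ (g : ℕ → ℕ → ℕ) (z : ℕ) (Y : Finset ℕ), Y.card = k ∧ A g z ∧ z ∉ Y ∧
      (∀ v ∉ Y, v ≠ z → g x v = f x v) ∧ ∀ v ∈ Y, G.Adj x v ∧ g x v ≠ b ∧ Ms f v (g x v) ∧
        ∃ g', A g' v ∧ ∀ w, g' x w = g x v → f x w = g x v := fun k => by
    induction k with
    | zero => exact ⟨f, y, ∅, rfl, (hA _ _).2 ⟨h, fun _ _ _ _ => rfl, fun _ => id⟩, by simp⟩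
    | succ k ih =>
      obtain ⟨g, z, Y, rfl, i1, i2, i3, i4⟩ := ih
      obtain ⟨k1, k2, k3⟩ := (hA _ _).1 i1
      obtain ⟨d, ld, d1, d2⟩ : ∃ d ≤ D + 1, (z = y → d ≠ b) ∧ Ms f z d := by
        by_cases o : z = y
        · simpa [o] using h.pr.miss hD y {x} {b} (by simpa using ⟨h.ad.symm, h.symm.ze⟩) le_rfl
        · simpa [o] using h.pr.miss hD z ∅ ∅ (by simp) le_rfl
      have d0 := h.pr.pos d2
      obtain ⟨w, o⟩ : ∃ w, g x w = d := by_contra fun o => n (k1.fill hx (hw _ k1.ad) ld (not_exists.1 o) (ms i1 d2))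
      have wz : w ≠ z := fun r => d0 (o.symm.trans (r ▸ k1.ze))
      have wx := k1.pr.ad x w (o.trans_ne d0)
      have uq : ∀ v, g x v = d → v = w := fun v r => k1.pr.pr x v w (r.trans o.symm) (r.trans_ne d0)
      by_cases db : d = b
      · exact (out i1 la ld ha d2 (S := {x}ᶜ) (by simp) k1.ad.ne' (by grind) (.inl ⟨rfl, db, by grind, rfl⟩)).elim
      by_cases wY : w ∈ Y
      · obtain ⟨c, lc, c1, c2⟩ := h.pr.miss hD x {y} {a} (by simpa using ⟨h.ad, h.ze⟩) le_rfl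
        have cb : c ≠ b := fun r => n (h.fill hx (hw _ h.ad) lb (r ▸ c2) hb)
        have da : d ≠ a := fun r => k3 a ha w (o.trans r)
        obtain ⟨S, v, s1, s2, s3⟩ := h.pr.ends (h.pr.pos c2) d0 (.inl c2)
        obtain ⟨-, -, j1, g', j2, j3⟩ := i4 w wY
        rw [o] at j1 j3
        have r : c ≠ a ∧ c ≠ b ∧ d ≠ a ∧ d ≠ b ∧ Cl f c d Sᶜ := ⟨mt mem_singleton.2 c1, cb, da, db, s2⟩
        by_cases wS : w ∈ S
        · have := s3 w wS (.inr j1)
          have := fun r => s3 z r (.inr d2)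
          have := wx.ne
          have := k1.ad.ne
          exact (out i1 lc ld c2 d2 (S := Sᶜ) (by simpa) (by grind) (by grind) (.inr r)).elim
        · exact (out j2 lc ld c2 j1 (S := Sᶜ) (by simpa) wS (fun v _ => j3 v) (.inr r)).elim
      have := wx.ne
      have := k1.ad.ne
      refine ⟨_, w, insert z Y, card_insert_of_notMem i2, (hA _ _).2 ⟨k1.mv hx (hw _ k1.ad) (hw _ wx) (ms i1 d2) o,
        fun u v r s => ?_, fun c r v => ?_⟩, by grind, fun v r s => ?_, fun v r => ?_⟩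
      · grind [up]
      · have := k3 c r
        have := h.pr.pos r
        grind [up, Ms]
      · grind [up]
      rcases mem_insert.1 r with rfl | r
      · have : up (up g x w 0) x v d x v = d := by simp [up]
        rw [this]
        exact ⟨k1.ad, db, d2, g, i1, by grind⟩
      · have : up (up g x w 0) x z d x v = g x v := by grind [up]
        exact this ▸ i4 v r
  obtain ⟨g, z, Y, k, -, -, -, l⟩ := this (D + 1)
  have := hD x Y fun v m => (l v m).1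
  omega

/-- end points of two-coloured components through `w` -/
def En (f : ℕ → ℕ → ℕ) (w c d z : ℕ) : Prop := c ≠ 0 ∧ d ≠ 0 ∧ (Ms f z c ∨ Ms f z d) ∧ ∀ K, Cl f c d K → z ∈ K → w ∈ K

theorem Pr.cnt (h : Pr G D f) (hD : Dg G D) (w c d : ℕ) :
    ∃ F : Finset ℕ, F.card ≤ 2 * D ∧ ∀ z t, En f w c d z → G.Adj z t → t ∈ F := by
  classical
  have nb : ∀ u, ∃ F : Finset ℕ, F.card ≤ D ∧ ∀ t, G.Adj u t → t ∈ F := fun u => by
    have : {t | G.Adj u t}.Finite := not_not.1 fun e => by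
      obtain ⟨s, k, l⟩ := Set.Infinite.exists_subset_card_eq e (D + 1)
      have := hD u s k
      omega
    exact ⟨this.toFinset, hD u _ (by simp), by simp⟩
  by_cases e : ∃ u, En f w c d u
  swap
  · exact ⟨∅, by simp, fun z _ k => (e ⟨z, k⟩).elim⟩
  obtain ⟨u, c0, d0, e, k⟩ := e
  obtain ⟨S, v, s1, s2, s3⟩ := h.ends c0 d0 e
  obtain ⟨F, f1, f2⟩ := nb u
  obtain ⟨H, h1, h2⟩ := nb v
  have wS := k S (fun u m v n => by_contra fun o => s2 v o u (h.sy _ _ ▸ n) m) s1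
  refine ⟨F ∪ H, (card_union_le _ _).trans (by omega), fun z t l m => mem_union.2 ?_⟩
  exact (s3 z (by_contra fun o => l.2.2.2 _ s2 o wS) l.2.2.1).imp (fun o : z = u => f2 t (o ▸ m)) fun o : z = v => h2 t (o ▸ m)

theorem avoid {V : Set ℕ} {d : ℕ} (c0 : c ≠ 0) (d0 : d ≠ 0) (m : Ms f z c ∨ Ms f z d) (n : ∀ w ∈ V, ¬ En f w c d z) :
    ∃ K, Cl f c d K ∧ z ∈ K ∧ ∀ w ∈ V, w ∉ K :=
  ⟨⋂₀ {K | Cl f c d K ∧ z ∈ K}, fun u k v l K o => o.1 u (k K o) v l, fun _ o => o.2,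
    fun w k l => n w k ⟨c0, d0, m, fun K o p => l K ⟨o, p⟩⟩⟩

theorem step {d r : ℕ} (h : Pr G D g) (e : p ≠ q) (ze : g p q = 0) (i2 : Ms g p c) (i3 : Ms g q d)
    (i4 : c = a ∧ d = b ∨ c = b ∧ d = a) (i5 : Cl g a b K) (i6 : p ∈ K) (rK : r ∉ K) (o : g q r = c) :
    Ms (up (up g q r 0) q p c) q d ∧ Ms (up (up g q r 0) q p c) r c ∧ Cl (up (up g q r 0) q p c) a b (insert q K) ∧
      (∀ u v e, e ≠ a → e ≠ b → e ≠ 0 → (up (up g q r 0) q p c u v = e ↔ g u v = e)) ∧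
      ∀ u v, up (up g q r 0) q p c u v = a ∨ up (up g q r 0) q p c u v = b ∨ u = q ∧ v = r ∨ u = r ∧ v = q ↔
        g u v = a ∨ g u v = b ∨ u = p ∧ v = q ∨ u = q ∧ v = p := by
  have c0 := h.pos i2
  have d0 := h.pos i3
  have := (h.ad q r (o.trans_ne c0)).ne
  have := h.sy q r
  have := h.sy p q
  have cd : c ≠ d := fun t => i3 r (o.trans t)
  have rp : r ≠ p := fun t => rK (t ▸ i6)
  refine ⟨fun v => ?_, fun v => ?_, fun u t v w => ?_, fun u v e e1 e2 e3 => ?_, fun u v => ?_⟩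
  · have := i3 v
    grind [up]
  · have := h.pr r v q
    grind [up]
  · have := i5 u
    have := i3 v
    have := h.pr q v r
    grind [up]
  · grind [up]
  · grind [up]

theorem St.line {B : ℕ → Set ℕ} {V : Finset ℕ} (h : St G D φ W T f x y) (hD : Dg G D) (hW : W ⊆ B 0)
    (hB : ∀ r, ∀ u ∈ B r, u ∈ B (r + 1) ∧ ∀ v, G.Adj u v → v ∈ B (r + 1)) (hV : W ⊆ V)
    (hx : x ∉ B ((V.card + 2) * (D + 2) * (D + 2) * (2 * D) + 3)) (la : a ≤ D + 1) (lb : b ≤ D + 1) (ha : Ms f x a)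
    (hb : Ms f y b) (hK : Cl f a b K) (xK : x ∈ K) (yK : y ∉ K) : Sol G D φ W T := by
  by_contra n
  have mo : Monotone B := monotone_nat_of_le_succ fun r u k => (hB r u k).1
  choose F f1 f2 using h.pr.cnt hD
  obtain ⟨E, e1, e2⟩ : ∃ E : Finset ℕ, E.card ≤ (V.card + 2) * (D + 2) * (D + 2) * (2 * D) ∧ ∀ w c d z t,
      w ∈ insert x (insert y V) → c ≤ D + 1 → d ≤ D + 1 → En f w c d z → G.Adj z t → t ∈ E := by
    refine ⟨((insert x (insert y V) ×ˢ range (D + 2)) ×ˢ range (D + 2)).biUnion fun t => F t.1.1 t.1.2 t.2,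
      (card_biUnion_le_card_mul _ _ _ fun _ _ => f1 ..).trans ?_, fun w c d z t k l m o p =>
        mem_biUnion.2 ⟨((w, c), d), by simp only [mem_product, mem_range]; exact ⟨⟨k, by omega⟩, by omega⟩, f2 _ _ _ _ _ o p⟩⟩
    simp only [card_product, card_range]
    gcongr
    exact (card_insert_le _ _).trans (by simpa using card_insert_le y V)
  generalize (V.card + 2) * (D + 2) * (D + 2) * (2 * D) = N at *
  have : ∀ i ≤ N + 1, ∃ (g : ℕ → ℕ → ℕ) (p q c d : ℕ) (K : Set ℕ) (Y : Finset ℕ), St G D φ W T g p q ∧ Ms g p c ∧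
      Ms g q d ∧ (c = a ∧ d = b ∨ c = b ∧ d = a) ∧ Cl g a b K ∧ p ∈ K ∧ q ∉ K ∧
      (∀ u v e, e ≠ a → e ≠ b → e ≠ 0 → g u v = e → f u v = e) ∧
      (∀ u v, g u v = a ∨ g u v = b ∨ u = p ∧ v = q ∨ u = q ∧ v = p ↔
        f u v = a ∨ f u v = b ∨ u = x ∧ v = y ∨ u = y ∧ v = x) ∧
      (∀ u v e, e ≠ a → e ≠ b → e ≠ 0 → f u v = e → g u v = e) ∧
      (∀ L, Cl f a b L → x ∉ L → y ∉ L → p ∉ L ∧ q ∉ L) ∧ p ∉ B (N + 3 - i) ∧ Y.card = i ∧ Y ⊆ E ∧ p ∉ Y ∧
        ∀ t ∈ Y, t ∈ K := fun i => by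
    induction i with
    | zero => exact fun _ => ⟨f, x, y, a, b, K, ∅, h, ha, hb, .inl ⟨rfl, rfl⟩, hK, xK, yK, fun _ _ _ _ _ _ => id,
        fun _ _ => .rfl, fun _ _ _ _ _ _ => id, fun _ _ k l => ⟨k, l⟩, hx, by simp⟩
    | succ i ih =>
      intro li
      obtain ⟨g, p, q, c, d, K, Y, i1, i2, i3, i4, i5, i6, i7, i8, i9, j1, j2, j3, rfl, j4, j5, j6⟩ := ih (by omega)
      clear ih
      have nb : ∀ {u v r}, u ∉ B (r + 1) → G.Adj u v → v ∉ B r := fun k l m => k ((hB _ _ m).2 _ l.symm)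
      have nw : ∀ {u r}, u ∉ B r → u ∉ W := fun k l => k (mo (Nat.zero_le _) (hW l))
      rw [show N + 3 - Y.card = N + 1 - Y.card + 1 + 1 by omega] at j3
      have lc : c ≤ D + 1 ∧ d ≤ D + 1 := by omega
      have a0 := h.pr.pos ha
      have b0 := h.pr.pos hb
      have pE : p ∈ E := by
        obtain ⟨g', z, c', d', S, k1, k2, k3, k4, k5, k6, k7, k8, k9, l1, l2⟩ := i1.fan hD n (nw j3)
          (fun v k => nw (nb j3 k)) lc.1 lc.2 i2 i3
        have c0 := i1.pr.pos k4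
        have d0 := i1.pr.pos k6
        have zp := k1.ad.ne
        have ms : Ms f z c' ∨ Ms f z d' := by
          rcases l2 with ⟨rfl, rfl, l2, -⟩ | l2
          · by_contra! o
            simp only [Ms, not_forall, not_not] at o
            obtain ⟨⟨u, o1⟩, v, o2⟩ := o
            have := (i9 z u).2
            have := (i9 z v).2
            have := k6 u
            have := k6 v
            have := i1.pr.pr z u v
            have : c' ≠ d' := fun r => n (i1.fill (nw j3) (nw (nb j3 i1.ad)) k2 i2 (r ▸ i3))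
            grind
          · exact .inr fun v r => k6 v (j1 _ _ _ (by omega) (by omega) d0 r)
        by_contra o
        obtain ⟨L, m1, m2, m3⟩ := avoid (V := (insert x (insert y V) : Finset ℕ)) c0 d0 ms fun w r s =>
          o (e2 w _ _ z p r k2 k3 s k1.ad.symm)
        have xL := m3 x (by simp)
        have yL := m3 y (by simp)
        refine n (k1.kempe (K := L ∩ S) (nw j3) k2 k3 k5 k7 (l1 _ Set.inter_subset_right ?_) (fun r => k8 r.2) ⟨m2, k9⟩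
          fun w r s => m3 w (by simp [show w ∈ V from hV r]) s.1)
        rintro u ⟨r, s⟩ v t
        rcases l2 with ⟨rfl, rfl, l2, rfl⟩ | l2
        · have m4 : Cl f a b L := fun u r v t => m1 u r v (by omega)
          have := j2 L m4 xL yL
          have := (i9 u v).1
          have := m4 u r v
          grind
        · exact ⟨m1 u r v (t.imp (i8 _ _ _ (by omega) (by omega) c0) (i8 _ _ _ (by omega) (by omega) d0)),
            l2.2.2.2.2 u s v t⟩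
      have qB := nb j3 i1.ad
      obtain ⟨r, o⟩ : ∃ r, g q r = c := by_contra fun o => n (i1.fill (nw j3) (nw qB) lc.1 i2 (not_exists.1 o))
      have c0 := i1.pr.pos i2
      have d0 := i1.pr.pos i3
      have qr := i1.pr.ad q r (o.trans_ne c0)
      have s := i1.symm.mv (nw qB) (nw j3) (nw (nb qB qr)) i2 o
      have rK : r ∉ K := fun t => i7 (i5 r t q (by rw [i1.pr.sy]; omega))
      obtain ⟨m1, m2, m3, m4, m5⟩ := step i1.pr i1.ad.ne i1.ze i2 i3 i4 i5 i6 rK o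
      refine ⟨_, q, r, d, c, insert q K, insert p Y, s, m1, m2, by omega, m3, by simp, by simp [rK, qr.ne'],
        fun u v e e1 e2 e3 e4 => i8 u v e e1 e2 e3 ((m4 u v e e1 e2 e3).1 e4), fun u v => (m5 u v).trans (i9 u v),
        fun u v e e1 e2 e3 e4 => (m4 u v e e1 e2 e3).2 (j1 u v e e1 e2 e3 e4), fun L l1 l2 l3 => ⟨(j2 L l1 l2 l3).2,
        fun t => ?_⟩, by rwa [show N + 3 - (Y.card + 1) = N + 1 - Y.card + 1 by omega], card_insert_of_notMem j5,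
        insert_subset pE j4, fun t => (mem_insert.1 t).elim i1.ad.ne' fun t => i7 (j6 _ t),
        fun t w => .inr ((mem_insert.1 w).elim (· ▸ i6) (j6 t))⟩
      rcases (i9 r q).1 (by rw [i1.pr.sy]; omega) with w | w | w | w
      exacts [(j2 L l1 l2 l3).2 (l1 r t q (.inl w)), (j2 L l1 l2 l3).2 (l1 r t q (.inr w)), l2 (w.1 ▸ t), l3 (w.1 ▸ t)]
  obtain ⟨g, p, q, c, d, K, Y, -, -, -, -, -, -, -, -, -, -, -, -, k, l, -⟩ := this (N + 1) le_rfl
  have := card_le_card l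
  omega

theorem St.key {B : ℕ → Set ℕ} {V : Finset ℕ} (h : St G D φ W T f x y) (hD : Dg G D) (hW : W ⊆ B 0)
    (hB : ∀ r, ∀ u ∈ B r, u ∈ B (r + 1) ∧ ∀ v, G.Adj u v → v ∈ B (r + 1)) (hV : W ⊆ V)
    (hx : x ∉ B ((V.card + 2) * (D + 2) * (D + 2) * (2 * D) + 3)) : Sol G D φ W T := by
  by_contra n
  have mo : Monotone B := monotone_nat_of_le_succ fun r u k => (hB r u k).1
  obtain ⟨a, la, -, ha⟩ := h.pr.miss hD x ∅ ∅ (by simp) le_rfl
  obtain ⟨b, lb, -, hb⟩ := h.pr.miss hD y ∅ ∅ (by simp) le_rfl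
  obtain ⟨S, v, s1, s2, s3⟩ := h.pr.ends (h.pr.pos ha) (h.pr.pos hb) (.inl ha)
  have cc : ∀ {g c d} {S : Set ℕ}, Pr G D g → Cl g c d S → Cl g c d Sᶜ := fun k l u m v n o => m (l v o u (k.sy _ _ ▸ n))
  by_cases e : y ∈ S
  swap
  · exact n (h.line hD hW hB hV hx la lb ha hb (cc h.pr s2) (fun o => o s1) (not_not.2 e))
  obtain ⟨g, z, c, d, L, k1, k2, k3, k4, k5, k6, k7, k8, k9, l1, l2⟩ := h.fan hD n (fun k => hx (mo (Nat.zero_le _) (hW k)))
    (fun v k l => hx (mo (by omega) ((hB _ _ (hW l)).2 _ k.symm))) la lb ha hb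
  rcases l2 with ⟨rfl, rfl, l2, rfl⟩ | l2
  · have := s3 y e (.inr hb)
    have := fun r => s3 z r (.inr k6)
    have := h.ad.ne
    have := k1.ad.ne
    exact n (k1.line hD hW hB hV hx k2 k3 k5 k7 (cc k1.pr (l1 Sᶜ (by grind) s2)) (fun o => o s1) (by grind))
  · exact n (k1.line hD hW hB hV hx k2 k3 k5 k7 (cc k1.pr (l1 L le_rfl l2.2.2.2.2)) k8 (not_not.2 k9))

end Pool.Agent.H.MP_20d0cc_lc
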